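import Pool.Agent.H95.GY.Targets

/-!
# The bump function and the commutator estimate
-/

set_option autoImplicit false

open Filter Topology MeasureTheory Set
open scoped Pointwise

universe u v

namespace Pool.Agent.H69.GY

open Pool.Agent.H95.GY

section

variable {Q : Type u} [Group Q] [TopologicalSpace Q] {ν : Q → ℝ} {r C : ℝ}

theorem nu_sub (h : PreG ν r C) (g x : Q) : |ν (g * x) - ν x| ≤ ν g := by
  have h1 := h.mul g x
  have h2 := h.mul g⁻¹ (g * x)
  rw [inv_mul_cancel_left, h.inv] at h2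
  rw [abs_le]
  constructor <;> linarith

theorem cont_of_lip [IsTopologicalGroup Q] (h : PreG ν r C) (f : Q → ℝ) (L : ℝ) (hL : 0 ≤ L)
    (hf : ∀ k x, |f (k * x) - f x| ≤ L * ν k) : Continuous f := by
  rw [Metric.continuous_iff']
  intro a ε hε
  have hd : 0 < ε / (L + 1) := div_pos hε (by linarith)
  have h1 : {y | ν (y * a⁻¹) < ε / (L + 1)} ∈ 𝓝 a := by
    have h2 : Tendsto (fun y => y * a⁻¹) (𝓝 a) (𝓝 1) := by
      have h3 : ContinuousAt (fun y : Q => y * a⁻¹) a := by fun_prop
      have h4 := h3.tendsto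
      rwa [mul_inv_cancel] at h4
    exact h2 (h.nhd _ hd)
  filter_upwards [h1] with y hy
  rw [Real.dist_eq]
  have h3 := hf (y * a⁻¹) a
  rw [inv_mul_cancel_right] at h3
  have hy' : ν (y * a⁻¹) < ε / (L + 1) := hy
  rw [lt_div_iff₀ (by linarith)] at hy'
  have h5 := h.nonneg (y * a⁻¹)
  nlinarith

/-- the tent -/
noncomputable def psi (ν : Q → ℝ) (a : ℝ) (x : Q) : ℝ := max (a - ν x) 0

theorem psi_nonneg (a : ℝ) (x : Q) : 0 ≤ psi ν a x := le_max_right _ _

theorem psi_le (h : PreG ν r C) {a : ℝ} (ha : 0 ≤ a) (x : Q) : psi ν a x ≤ a :=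
  max_le (by linarith [h.nonneg x]) ha

theorem psi_ne {a : ℝ} {x : Q} (hx : psi ν a x ≠ 0) : ν x < a := by
  by_contra hcon
  push Not at hcon
  exact hx (max_eq_right (by linarith))

theorem psi_inv (h : PreG ν r C) (a : ℝ) (x : Q) : psi ν a x⁻¹ = psi ν a x := by
  unfold psi
  rw [h.inv]

theorem psi_lip (h : PreG ν r C) (a : ℝ) (k x : Q) : |psi ν a (k * x) - psi ν a x| ≤ ν k := by
  unfold psi
  refine (abs_max_sub_max_le_abs _ _ _).trans ?_
  have h1 := nu_sub h k x
  rw [abs_sub_comm] at h1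
  have e : a - ν (k * x) - (a - ν x) = ν x - ν (k * x) := by ring
  rw [e]
  exact h1

theorem psi_cont [IsTopologicalGroup Q] (h : PreG ν r C) (a : ℝ) : Continuous (psi ν a) :=
  cont_of_lip h _ 1 zero_le_one fun k x => by rw [one_mul]; exact psi_lip h a k x

variable [IsTopologicalGroup Q] [T2Space Q] [MeasurableSpace Q] [BorelSpace Q]
  (μ : Measure Q) [μ.IsHaarMeasure]

/-- the bump function -/
noncomputable def phi (ν : Q → ℝ) (a : ℝ) (x : Q) : ℝ := ∫ y, psi ν a y * psi ν a (y⁻¹ * x) ∂μ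

theorem integ (h : PreG ν r C) {a : ℝ} (har : a ≤ r) (w : Q → ℝ) (hw : Continuous w) (z : Q) :
    Integrable (fun y => w y * psi ν a (y⁻¹ * z)) μ := by
  refine Continuous.integrable_of_hasCompactSupport ?_ ?_
  · exact hw.mul ((psi_cont h a).comp (by fun_prop))
  · refine HasCompactSupport.intro (K := (fun y => z * y⁻¹) '' {g | ν g ≤ r})
      (h.cpt.image (by fun_prop)) ?_
    intro y hy
    by_contra hcon
    have h1 : psi ν a (y⁻¹ * z) ≠ 0 := right_ne_zero_of_mul hcon
    have h2 := psi_ne h1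
    refine hy ⟨y⁻¹ * z, (h2.le.trans har), ?_⟩
    show z * (y⁻¹ * z)⁻¹ = y
    group

theorem int_psi (h : PreG ν r C) (a : ℝ) (x : Q) :
    ∫ y, psi ν a (y⁻¹ * x) ∂μ = ∫ y, psi ν a y ∂μ := by
  rw [← integral_mul_left_eq_self (fun y => psi ν a (y⁻¹ * x)) x]
  congr 1
  funext y
  have e : (x * y)⁻¹ * x = y⁻¹ := by group
  rw [e, psi_inv h]

theorem star (h : PreG ν r C) {a : ℝ} (har : a ≤ r) (g z : Q) :
    phi μ ν a (g * z) - phi μ ν a z =
      ∫ y, (psi ν a (g * y) - psi ν a y) * psi ν a (y⁻¹ * z) ∂μ := by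
  have h1 : phi μ ν a (g * z) = ∫ y, psi ν a (g * y) * psi ν a (y⁻¹ * z) ∂μ := by
    unfold phi
    rw [← integral_mul_left_eq_self (fun y => psi ν a y * psi ν a (y⁻¹ * (g * z))) g]
    congr 1
    funext y
    have e : (g * y)⁻¹ * (g * z) = y⁻¹ * z := by group
    rw [e]
  rw [h1]
  unfold phi
  rw [← integral_sub (integ μ h har (fun y => psi ν a (g * y))
    ((psi_cont h a).comp (by fun_prop)) z) (integ μ h har _ (psi_cont h a) z)]
  congr 1
  funext y
  ring

theorem phi_lip (h : PreG ν r C) {a : ℝ} (har : a ≤ r) (k x : Q) :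
    |phi μ ν a (k * x) - phi μ ν a x| ≤ (∫ y, psi ν a y ∂μ) * ν k := by
  rw [star μ h har, ← int_psi μ h a x, mul_comm, ← integral_const_mul, ← Real.norm_eq_abs]
  refine norm_integral_le_of_norm_le (integ μ h har _ continuous_const x)
    (Eventually.of_forall fun y => ?_)
  rw [norm_mul, Real.norm_eq_abs, Real.norm_eq_abs, abs_of_nonneg (psi_nonneg a (y⁻¹ * x))]
  exact mul_le_mul_of_nonneg_right (psi_lip h a k y) (psi_nonneg _ _)

theorem phi_bd (h : PreG ν r C) {a : ℝ} (ha : 0 ≤ a) (har : a ≤ r) (x : Q) :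
    |phi μ ν a x| ≤ a * ∫ y, psi ν a y ∂μ := by
  unfold phi
  rw [← int_psi μ h a x, ← integral_const_mul, ← Real.norm_eq_abs]
  refine norm_integral_le_of_norm_le (integ μ h har _ continuous_const x)
    (Eventually.of_forall fun y => ?_)
  rw [norm_mul, Real.norm_eq_abs, Real.norm_eq_abs, abs_of_nonneg (psi_nonneg a (y⁻¹ * x)),
    abs_of_nonneg (psi_nonneg a y)]
  exact mul_le_mul_of_nonneg_right (psi_le h ha y) (psi_nonneg _ _)

theorem phi_ne (h : PreG ν r C) {a : ℝ} {x : Q} (hx : 2 * a ≤ ν x) : phi μ ν a x = 0 := by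
  unfold phi
  have h1 : ∀ y, psi ν a y * psi ν a (y⁻¹ * x) = 0 := by
    intro y
    by_contra hcon
    have h2 := psi_ne (left_ne_zero_of_mul hcon)
    have h3 := psi_ne (right_ne_zero_of_mul hcon)
    have h4 := h.mul y (y⁻¹ * x)
    rw [mul_inv_cancel_left] at h4
    linarith
  simp_rw [h1]
  exact integral_zero _ _

theorem phi_pos (h : PreG ν r C) {a : ℝ} (ha : 0 < a) (har : a ≤ r) : 0 < phi μ ν a 1 := by
  unfold phi
  have h1 : ∀ y, psi ν a y * psi ν a (y⁻¹ * 1) = psi ν a y * psi ν a y := by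
    intro y
    rw [mul_one, psi_inv h]
  simp_rw [h1]
  refine Continuous.integral_pos_of_hasCompactSupport_nonneg_nonzero (x := 1) ?_ ?_ ?_ ?_
  · exact (psi_cont h a).mul (psi_cont h a)
  · refine HasCompactSupport.intro (K := {g | ν g ≤ r}) h.cpt ?_
    intro y hy
    by_contra hcon
    have h2 := psi_ne (left_ne_zero_of_mul hcon)
    exact hy (h2.le.trans har)
  · intro y
    exact mul_nonneg (psi_nonneg _ _) (psi_nonneg _ _)
  · have h2 : psi ν a (1 : Q) = a := by
      unfold psi
      rw [h.one, sub_zero, max_eq_left ha.le]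
    rw [h2]
    positivity

theorem phi_sec (h : PreG ν r C) {a : ℝ} (har : a ≤ r / 2) (g k x : Q)
    (hg : ν g ≤ r / 2) :
    |phi μ ν a (g * k * x) - phi μ ν a (g * x) - phi μ ν a (k * x) + phi μ ν a x| ≤
      (C * μ.real {g | ν g ≤ r}) * ν g * ν k := by
  have hr := h.r_pos
  have har' : a ≤ r := by linarith
  have e1 : phi μ ν a (g * k * x) - phi μ ν a (g * x) - phi μ ν a (k * x) + phi μ ν a x =
      (phi μ ν a (g * (k * x)) - phi μ ν a (k * x)) - (phi μ ν a (g * x) - phi μ ν a x) := by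
    rw [mul_assoc]; ring
  have hw : Continuous fun y => psi ν a (g * y) - psi ν a y :=
    ((psi_cont h a).comp (by fun_prop)).sub (psi_cont h a)
  rw [e1, star μ h har', star μ h har', ← integral_sub (integ μ h har' _ hw _)
    (integ μ h har' _ hw _), ← Real.norm_eq_abs]
  have hK : MeasurableSet {g : Q | ν g ≤ r} := h.cpt.isClosed.measurableSet
  have hK2 : μ {g : Q | ν g ≤ r} ≠ ⊤ := h.cpt.measure_lt_top.ne
  have e2 : (C * μ.real {g | ν g ≤ r}) * ν g * ν k =
      ∫ y, ({g : Q | ν g ≤ r}.indicator fun _ => ν g * (C * ν k)) y ∂μ := by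
    rw [integral_indicator_const _ hK, smul_eq_mul]
    ring
  rw [e2]
  refine norm_integral_le_of_norm_le ?_ (Eventually.of_forall fun y => ?_)
  · exact (integrable_indicator_iff hK).2 (integrableOn_const hK2)
  · rw [← mul_sub, norm_mul, Real.norm_eq_abs, Real.norm_eq_abs]
    by_cases hy : ν y ≤ r
    · rw [indicator_of_mem (show y ∈ {g : Q | ν g ≤ r} from hy)]
      refine mul_le_mul (psi_lip h a g y) ?_ (abs_nonneg _) (h.nonneg _)
      have h1 := psi_lip h a (y⁻¹ * k * y) (y⁻¹ * x)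
      have e3 : y⁻¹ * k * y * (y⁻¹ * x) = y⁻¹ * (k * x) := by group
      rw [e3] at h1
      refine h1.trans ?_
      have h2 := h.conj k y⁻¹ (by rw [h.inv]; exact hy)
      rwa [inv_inv] at h2
    · rw [indicator_of_notMem (show y ∉ {g : Q | ν g ≤ r} from hy)]
      push Not at hy
      have h1 : psi ν a y = 0 := by
        by_contra hcon
        have := psi_ne hcon
        linarith
      have h2 : psi ν a (g * y) = 0 := by
        by_contra hcon
        have h3 := psi_ne hcon
        have h4 := abs_le.1 (nu_sub h g y)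
        linarith [h4.1]
      rw [h1, h2, sub_zero, abs_zero, zero_mul]

theorem phi_low (h : PreG ν r C) {a : ℝ} (ha : 0 < a) (har : 4 * C * a ≤ r) (k : Q) :
    ∃ x, ν k ≤ ((1 + r) / phi μ ν a 1) * |phi μ ν a (k * x) - phi μ ν a x| := by
  have hr := h.r_pos
  have hC := h.C_pos
  have har' : 4 * a ≤ r := by nlinarith
  set p := phi μ ν a 1 with hp
  have hp0 : 0 < p := phi_pos μ h ha (by linarith)
  by_cases h0 : 2 * a ≤ ν k
  · refine ⟨1, ?_⟩
    rw [mul_one, phi_ne μ h h0, ← hp, zero_sub, abs_neg, abs_of_pos hp0,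
      div_mul_cancel₀ _ hp0.ne']
    linarith [h.le_one k]
  · push Not at h0
    rcases eq_or_lt_of_le (h.nonneg k) with h1 | h1
    · refine ⟨1, ?_⟩
      rw [← h1]
      positivity
    · set n := ⌊r / ν k⌋₊ with hn
      have hn1 : n * ν k ≤ r := by
        have h2 : (n : ℝ) ≤ r / ν k := Nat.floor_le (by positivity)
        rwa [le_div_iff₀ h1] at h2
      have hn2 : r < (n + 1) * ν k := by
        have h2 : r / ν k < (n : ℝ) + 1 := Nat.lt_floor_add_one _
        rwa [div_lt_iff₀ h1] at h2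
      have hn3 : r / 2 < n * ν k := by nlinarith
      have hn4 : 2 * a ≤ ν (k ^ n) := by
        have h2 := h.esc k n hn1
        have h3 : 0 ≤ ν (k ^ n) := h.nonneg _
        by_contra hcon
        push Not at hcon
        nlinarith
      have hn0 : 0 < (n : ℝ) := by
        by_contra hcon
        have : (n : ℝ) = 0 := le_antisymm (not_lt.1 hcon) (Nat.cast_nonneg n)
        rw [this, zero_mul] at hn3
        linarith
      have h5 : ∃ j ∈ Finset.range n, p / n ≤ |phi μ ν a (k * k ^ j) - phi μ ν a (k ^ j)| := by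
        by_contra hcon
        push Not at hcon
        have h6 : ∑ j ∈ Finset.range n, |phi μ ν a (k * k ^ j) - phi μ ν a (k ^ j)| <
            ∑ _j ∈ Finset.range n, p / n := by
          refine Finset.sum_lt_sum_of_nonempty ?_ hcon
          rw [Finset.nonempty_range_iff]
          rintro h7
          rw [h7] at hn0
          simp at hn0
        rw [Finset.sum_const, Finset.card_range, nsmul_eq_mul, mul_div_cancel₀ _ hn0.ne'] at h6
        have h8 : ∑ j ∈ Finset.range n, (phi μ ν a (k * k ^ j) - phi μ ν a (k ^ j)) = -p := by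
          have h9 : ∀ j, phi μ ν a (k * k ^ j) = phi μ ν a (k ^ (j + 1)) := fun j => by
            rw [pow_succ']
          simp_rw [h9]
          rw [Finset.sum_range_sub (fun j => phi μ ν a (k ^ j)), phi_ne μ h hn4, pow_zero, ← hp,
            zero_sub]
        have h10 := Finset.abs_sum_le_sum_abs (fun j => phi μ ν a (k * k ^ j) - phi μ ν a (k ^ j))
          (Finset.range n)
        rw [h8, abs_neg, abs_of_pos hp0] at h10
        linarith
      obtain ⟨j, -, hj⟩ := h5
      refine ⟨k ^ j, ?_⟩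
      have h6 : ν k ≤ r / n := by
        rw [le_div_iff₀ hn0]
        linarith
      calc ν k ≤ r / n := h6
        _ ≤ (1 + r) / n := div_le_div_of_nonneg_right (by linarith) hn0.le
        _ = ((1 + r) / p) * (p / n) := by field_simp
        _ ≤ ((1 + r) / p) * |phi μ ν a (k * k ^ j) - phi μ ν a (k ^ j)| :=
          mul_le_mul_of_nonneg_left hj (by positivity)

end

theorem pf_BMP : T_BMP.{u} := by
  intro Q _ _ _ _ _ ν r C h
  borelize Q
  let μ : Measure Q := Measure.haar
  have hr := h.r_pos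
  have hC := h.C_pos
  have hC0 : 0 < C := by linarith
  obtain ⟨a, ha, har⟩ : ∃ a : ℝ, 0 < a ∧ 4 * C * a ≤ r :=
    ⟨r / (4 * C), by positivity, by rw [mul_div_cancel₀]; positivity⟩
  have har4 : 4 * a ≤ r := by nlinarith
  set m := ∫ y, psi ν a y ∂μ with hm
  have hm0 : 0 ≤ m := integral_nonneg fun y => psi_nonneg _ _
  set c1 := (1 + r) / phi μ ν a 1 with hc1
  have hc10 : 0 ≤ c1 := by
    have := phi_pos μ h ha (by linarith)
    positivity
  set c2 := C * μ.real {g | ν g ≤ r} with hc2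
  have hc20 : 0 ≤ c2 := mul_nonneg hC0.le measureReal_nonneg
  have hlip : ∀ k x, |phi μ ν a (k * x) - phi μ ν a x| ≤ m * ν k := fun k x =>
    phi_lip μ h (by linarith) k x
  set C' := C + a * m + m + c1 + c2 + 2 * c1 * c2 with hC'
  have ham : 0 ≤ a * m := mul_nonneg ha.le hm0
  have hcc : 0 ≤ 2 * c1 * c2 := by positivity
  have hCC' : C ≤ C' := by linarith
  have hsec : ∀ g k x, ν g ≤ r / 2 →
      |phi μ ν a (g * k * x) - phi μ ν a (g * x) - phi μ ν a (k * x) + phi μ ν a x| ≤
        c2 * ν g * ν k := fun g k x hg => phi_sec μ h (by linarith) g k x hg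
  refine ⟨phi μ ν a, r / 2, C', ?_⟩
  refine GD.mk (PreG.mk (by linarith) (by linarith) h.nonneg h.le_one h.one h.inv h.mul h.small
    h.nhd ?_ ?_ ?_) ?_ (cont_of_lip h _ m hm0 hlip) ?_ ?_ ?_ ?_
  · have hν : Continuous ν := cont_of_lip h ν 1 zero_le_one fun k x => by
      rw [one_mul]; exact nu_sub h k x
    refine h.cpt.of_isClosed_subset (isClosed_le hν continuous_const) ?_
    intro g hg
    have hg' : ν g ≤ r / 2 := hg
    show ν g ≤ r
    linarith
  · intro g n hn
    refine (h.esc g n (by linarith)).trans ?_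
    exact mul_le_mul_of_nonneg_right hCC' (h.nonneg _)
  · intro g k hk
    refine (h.conj g k (by linarith)).trans ?_
    exact mul_le_mul_of_nonneg_right hCC' (h.nonneg _)
  · intro g k hg hk
    obtain ⟨x, hx⟩ := phi_low μ h ha har (g * k * g⁻¹ * k⁻¹)
    set z := g⁻¹ * k⁻¹ * x with hz
    have e1 : g * k * g⁻¹ * k⁻¹ * x = g * k * z := by rw [hz]; group
    have e2 : k * g * z = x := by rw [hz]; group
    have e3 : phi μ ν a (g * k * z) - phi μ ν a (k * g * z) =
        (phi μ ν a (g * k * z) - phi μ ν a (g * z) - phi μ ν a (k * z) + phi μ ν a z) -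
        (phi μ ν a (k * g * z) - phi μ ν a (k * z) - phi μ ν a (g * z) + phi μ ν a z) := by ring
    rw [e1] at hx
    have e4 : phi μ ν a (g * k * z) - phi μ ν a x =
        phi μ ν a (g * k * z) - phi μ ν a (k * g * z) := by rw [e2]
    rw [e4, e3] at hx
    have h1 := hsec g k z hg
    have h2 := hsec k g z hk
    have h3 := abs_sub
      (phi μ ν a (g * k * z) - phi μ ν a (g * z) - phi μ ν a (k * z) + phi μ ν a z)
      (phi μ ν a (k * g * z) - phi μ ν a (k * z) - phi μ ν a (g * z) + phi μ ν a z)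
    have h4 : ν (g * k * g⁻¹ * k⁻¹) ≤ 2 * c1 * c2 * (ν g * ν k) := by
      refine hx.trans ?_
      have h5 : c1 * |(phi μ ν a (g * k * z) - phi μ ν a (g * z) - phi μ ν a (k * z) +
          phi μ ν a z) - (phi μ ν a (k * g * z) - phi μ ν a (k * z) - phi μ ν a (g * z) +
          phi μ ν a z)| ≤ c1 * (c2 * ν g * ν k + c2 * ν k * ν g) :=
        mul_le_mul_of_nonneg_left (h3.trans (add_le_add h1 h2)) hc10
      refine h5.trans (le_of_eq ?_)
      ring
    refine h4.trans ?_
    rw [mul_assoc C']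
    exact mul_le_mul_of_nonneg_right (by linarith) (mul_nonneg (h.nonneg _) (h.nonneg _))
  · intro x
    refine (phi_bd μ h ha.le (by linarith) x).trans ?_
    rw [← hm]
    linarith
  · intro k x
    refine (hlip k x).trans ?_
    exact mul_le_mul_of_nonneg_right (by linarith) (h.nonneg _)
  · intro k
    obtain ⟨x, hx⟩ := phi_low μ h ha har k
    refine ⟨x, hx.trans ?_⟩
    exact mul_le_mul_of_nonneg_right (by linarith) (abs_nonneg _)
  · intro g k x hg
    refine (hsec g k x hg).trans ?_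
    exact mul_le_mul_of_nonneg_right (mul_le_mul_of_nonneg_right (by linarith) (h.nonneg _))
      (h.nonneg _)

end Pool.Agent.H69.GY
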