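import Pool.Agent.H95.GY.Targets

/-!
# The exponential map is Lipschitz near zero
-/

set_option autoImplicit false

open Filter Topology MeasureTheory Set
open scoped Pointwise

universe u v

namespace Pool.Agent.H69.GY

open Pool.Agent.H95.GY

theorem pf_HL (hUP : T_UP.{u}) (hHB : T_HB.{u}) : T_HL.{u} := by
  intro Q _ _ _ _ ν φ r C hG
  have hr := hG.r_pos
  have hC1 := hG.C_pos
  have hC : 0 < C := by linarith
  refine ⟨r / C, div_pos hr hC, C ^ 2, by positivity, ?_⟩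
  intro X Y D D' M hX hY hD hD' hM
  have hbX : ∀ t, ν (X t) ≤ r * |t| := by
    intro t
    have h1 := hHB Q ν φ r C hG X D (r / C) hX hD t
    rwa [mul_div_cancel₀ _ hC.ne'] at h1
  obtain ⟨hXo, c, hc, t₀, ht₀, h1⟩ := hX
  obtain ⟨hYo, c', hc', t₀', ht₀', h2⟩ := hY
  refine le_of_forall_pos_le_add fun ε hε => ?_
  obtain ⟨n, hn⟩ := exists_nat_gt (max (max (1 / t₀) (1 / t₀')) (C ^ 2 * (c + c') / ε))
  have hn1 : 1 / t₀ < n := (le_max_left _ _).trans (le_max_left _ _) |>.trans_lt hn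
  have hn2 : 1 / t₀' < n := (le_max_right _ _).trans (le_max_left _ _) |>.trans_lt hn
  have hn3 : C ^ 2 * (c + c') / ε < n := (le_max_right _ _).trans_lt hn
  have hn0 : (0 : ℝ) < n := lt_trans (by positivity) hn1
  have hnn : n ≠ 0 := by
    rintro rfl
    simp at hn0
  have hi1 : |1 / (n : ℝ)| ≤ t₀ := by
    rw [abs_of_pos (by positivity), div_le_iff₀ hn0]
    rw [div_lt_iff₀ ht₀] at hn1
    linarith
  have hi2 : |1 / (n : ℝ)| ≤ t₀' := by
    rw [abs_of_pos (by positivity), div_le_iff₀ hn0]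
    rw [div_lt_iff₀ ht₀'] at hn2
    linarith
  set g := X (1 / (n : ℝ)) with hg
  set h := Y (1 / (n : ℝ)) with hh
  have hgn : g ^ n = X 1 := hXo.div hnn 1
  have hhn : h ^ n = Y 1 := hYo.div hnn 1
  have h3 := hUP Q ν r C hG.toPreG g h n (by
    intro j hj
    rw [hg, ← hXo.nsmul]
    refine (hbX _).trans ?_
    have h4 : |(j : ℝ) * (1 / n)| ≤ 1 := by
      rw [abs_of_nonneg (by positivity), mul_one_div, div_le_one hn0]
      exact_mod_cast hj.le
    nlinarith)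
  rw [hgn, hhn] at h3
  obtain ⟨x, hx⟩ := hG.low (g * h⁻¹)
  set z := h⁻¹ * x with hz
  have e1 : g * h⁻¹ * x = g * z := by rw [hz, mul_assoc]
  have e2 : x = h * z := by rw [hz, mul_inv_cancel_left]
  have h5 : |φ (g * z) - φ (h * z)| ≤ c * (1 / n) ^ 2 + (1 / n) * M + c' * (1 / n) ^ 2 := by
    have a1 := abs_le.1 (h1 (1 / n) z hi1)
    have a2 := abs_le.1 (h2 (1 / n) z hi2)
    have a3 := abs_le.1 (hM z)
    rw [← hg] at a1
    rw [← hh] at a2
    have hnp : (0 : ℝ) < 1 / n := by positivity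
    have a4 : (1 / (n : ℝ)) * (D z - D' z) ≤ (1 / n) * M :=
      mul_le_mul_of_nonneg_left a3.2 hnp.le
    have a5 : (1 / (n : ℝ)) * (-M) ≤ (1 / n) * (D z - D' z) :=
      mul_le_mul_of_nonneg_left a3.1 hnp.le
    rw [abs_le]
    constructor <;> linarith [a1.1, a1.2, a2.1, a2.2]
  have h6 : ν (g * h⁻¹) ≤ C * (c * (1 / n) ^ 2 + (1 / n) * M + c' * (1 / n) ^ 2) := by
    refine hx.trans (mul_le_mul_of_nonneg_left ?_ hC.le)
    rw [e1]
    conv_lhs => rw [e2]
    exact h5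
  have h7 : C * n * ν (g * h⁻¹) ≤ C ^ 2 * M + C ^ 2 * (c + c') / n := by
    have h8 : C * n * ν (g * h⁻¹) ≤
        C * n * (C * (c * (1 / n) ^ 2 + (1 / n) * M + c' * (1 / n) ^ 2)) :=
      mul_le_mul_of_nonneg_left h6 (by positivity)
    refine h8.trans (le_of_eq ?_)
    field_simp
    ring
  have h9 : C ^ 2 * (c + c') / n ≤ ε := by
    rw [div_le_iff₀ hn0]
    rw [div_lt_iff₀ hε] at hn3
    linarith
  linarith

end Pool.Agent.H69.GY
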